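import Mathlib

set_option autoImplicit false

namespace Pool.Agent.H46R2.Amalgam

open Monoid Monoid.PushoutI

variable {K : Bool → Type} [∀ i, Group (K i)] {H : Type} [Group H] {f : ∀ i, H →* K i}

/-- A nonempty alternating word whose letters are outside the amalgamated subgroup does not
represent an element of the amalgamated subgroup. -/
theorem notMem (hf : ∀ i, Function.Injective (f i)) (L : List (Σ i, K i)) (hne : L ≠ [])
    (hL : ∀ g ∈ L, g.2 ∉ (f g.1).range)
    (hc : L.IsChain fun l l' => Sigma.fst l ≠ Sigma.fst l') :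
    (L.map (fun g => (of g.1 g.2 : PushoutI f))).prod ∉ (base f).range := by
  intro hmem
  let w : CoprodI.Word K := ⟨L, fun l hl h1 => hL l hl (h1 ▸ one_mem _), hc⟩
  have hw : Reduced f w := hL
  have hprod : ofCoprodI (φ := f) w.prod
      = (L.map (fun g => (of g.1 g.2 : PushoutI f))).prod := by
    simp [w, CoprodI.Word.prod, map_list_prod, List.map_map, Function.comp_def]
  have := hw.eq_empty_of_mem_range hf (by rw [hprod]; exact hmem)
  apply hne
  have h2 : w.toList = (CoprodI.Word.empty : CoprodI.Word K).toList := by rw [this]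
  exact h2

/-- In an amalgam in which fourth powers commute, the amalgamated subgroup has index at most two
in each proper factor. -/
theorem index_two (hf : ∀ i, Function.Injective (f i)) (i j : Bool) (hij : i ≠ j)
    (hcomm : ∀ g h : PushoutI f, g ^ 4 * h ^ 4 = h ^ 4 * g ^ 4)
    (y : K j) (hy : y ∉ (f j).range) (a b : K i) (ha : a ∉ (f i).range) (hb : b ∉ (f i).range) :
    b * a⁻¹ ∈ (f i).range := by
  by_contra hba
  have hji : j ≠ i := fun h => hij h.symm
  have hy' : y⁻¹ ∉ (f j).range := fun h => hy (by simpa using inv_mem h)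
  have ha' : a⁻¹ ∉ (f i).range := fun h => ha (by simpa using inv_mem h)
  have hb' : b⁻¹ ∉ (f i).range := fun h => hb (by simpa using inv_mem h)
  let A : Σ i, K i := ⟨i, a⟩
  let A' : Σ i, K i := ⟨i, a⁻¹⟩
  let B : Σ i, K i := ⟨i, b⟩
  let B' : Σ i, K i := ⟨i, b⁻¹⟩
  let Y : Σ i, K i := ⟨j, y⟩
  let Y' : Σ i, K i := ⟨j, y⁻¹⟩
  let C : Σ i, K i := ⟨i, b * a⁻¹⟩
  have h := notMem hf [A, Y, A, Y, A, Y, A, Y, B, Y, B, Y, B, Y, C, Y', A', Y', A', Y', A',
    Y', B', Y', B', Y', B', Y', B'] (by simp)
    (by
      intro g hg
      simp only [List.mem_cons, List.not_mem_nil, or_false] at hg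
      rcases hg with h | h | h | h | h | h | h | h | h | h | h | h | h | h | h | h | h | h | h | h
        | h | h | h | h | h | h | h | h | h <;> subst h <;> assumption)
    (by simp [A, Y, B, C, Y', A', B', hij, hji])
  apply h
  have key := hcomm (of i a * of j y) (of i b * of j y)
  have : ([A, Y, A, Y, A, Y, A, Y, B, Y, B, Y, B, Y, C, Y', A', Y', A', Y', A',
    Y', B', Y', B', Y', B', Y', B'].map (fun g => (of g.1 g.2 : PushoutI f))).prod
      = (of i a * of j y) ^ 4 * (of i b * of j y) ^ 4 * ((of i b * of j y) ^ 4 *
        (of i a * of j y) ^ 4)⁻¹ := by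
    simp only [A, Y, B, C, Y', A', B', List.map_cons, List.map_nil, List.prod_cons,
      List.prod_nil, map_mul, map_inv, pow_succ, pow_zero, one_mul]
    group
  rw [this, key, mul_inv_cancel]
  exact one_mem _

/-- The structure of a nontrivial amalgam in which fourth powers commute. -/
theorem structure_of_comm (hf : ∀ i, Function.Injective (f i))
    (hcomm : ∀ g h : PushoutI f, g ^ 4 * h ^ 4 = h ^ 4 * g ^ 4)
    (x : K false) (hx : x ∉ (f false).range) (y : K true) (hy : y ∉ (f true).range) :
    ∃ s : PushoutI f, s ^ 8 ∉ (base f).range ∧ (base f).range.Normal ∧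
      ∀ g : PushoutI f, g ^ 2 * s * (g ^ 2)⁻¹ * s⁻¹ ∈ (base f).range := by
  have hidx0 : ∀ a b : K false, a ∉ (f false).range → b ∉ (f false).range →
      b * a⁻¹ ∈ (f false).range := fun a b ha hb =>
    index_two hf false true (by decide) hcomm y hy a b ha hb
  have hidx1 : ∀ a b : K true, a ∉ (f true).range → b ∉ (f true).range →
      b * a⁻¹ ∈ (f true).range := fun a b ha hb =>
    index_two hf true false (by decide) hcomm x hx a b ha hb
  have hbase : ∀ (i : Bool) (k : K i), k ∈ (f i).range → (of i k : PushoutI f) ∈ (base f).range := by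
    rintro i k ⟨h, rfl⟩
    exact ⟨h, (of_apply_eq_base f i h).symm⟩
  have hconj : ∀ (i : Bool) (k : K i) (h : H), k * f i h * k⁻¹ ∈ (f i).range := by
    intro i k h
    by_cases hk : k ∈ (f i).range
    · exact mul_mem (mul_mem hk ⟨h, rfl⟩) (inv_mem hk)
    · have hk2 : k * f i h ∉ (f i).range := by
        intro hk3
        exact hk (by simpa using mul_mem hk3 (inv_mem (⟨h, rfl⟩ : f i h ∈ (f i).range)))
      cases i
      · exact hidx0 _ _ hk hk2
      · exact hidx1 _ _ hk hk2
  have hnormal : (base f).range.Normal := by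
    refine ⟨?_⟩
    intro n hn g
    induction g using PushoutI.induction_on generalizing n with
    | of i k =>
      obtain ⟨h, rfl⟩ := hn
      rw [← of_apply_eq_base f i h, ← map_mul, ← map_inv, ← map_mul]
      exact hbase i _ (hconj i k h)
    | base h => exact mul_mem (mul_mem ⟨h, rfl⟩ hn) (inv_mem ⟨h, rfl⟩)
    | mul a b iha ihb =>
      have := iha _ (ihb _ hn)
      simpa [mul_assoc] using this
  refine ⟨of false x * of true y, ?_, hnormal, ?_⟩
  · have h := notMem hf [⟨false, x⟩, ⟨true, y⟩, ⟨false, x⟩, ⟨true, y⟩, ⟨false, x⟩, ⟨true, y⟩,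
      ⟨false, x⟩, ⟨true, y⟩, ⟨false, x⟩, ⟨true, y⟩, ⟨false, x⟩, ⟨true, y⟩, ⟨false, x⟩, ⟨true, y⟩,
      ⟨false, x⟩, ⟨true, y⟩] (by simp)
      (by
        intro g hg
        simp only [List.mem_cons, List.not_mem_nil, or_false] at hg
        rcases hg with h | h | h | h | h | h | h | h | h | h | h | h | h | h | h | h <;>
          subst h <;> assumption)
      (by simp)
    intro h2
    apply h
    convert h2 using 1
    simp only [List.map_cons, List.map_nil, List.prod_cons,
      List.prod_nil, pow_succ, pow_zero, one_mul]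
    group
  · -- conjugation acts by inversion or trivially on `s` modulo the base
    have := hnormal
    let Q := PushoutI f ⧸ (base f).range
    let q : PushoutI f →* Q := QuotientGroup.mk' (base f).range
    have hq : ∀ g : PushoutI f, q g = 1 ↔ g ∈ (base f).range := fun g =>
      QuotientGroup.eq_one_iff g
    have hx2 : q (of false x) * q (of false x) = 1 := by
      rw [← map_mul, ← map_mul, hq]
      have hx' : x⁻¹ ∉ (f false).range := fun h => hx (by simpa using inv_mem h)
      exact hbase _ _ (by simpa using hidx0 x⁻¹ x hx' hx)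
    have hy2 : q (of true y) * q (of true y) = 1 := by
      rw [← map_mul, ← map_mul, hq]
      have hy' : y⁻¹ ∉ (f true).range := fun h => hy (by simpa using inv_mem h)
      exact hbase _ _ (by simpa using hidx1 y⁻¹ y hy' hy)
    have hxi : (q (of false x))⁻¹ = q (of false x) := inv_eq_of_mul_eq_one_left hx2
    have hyi : (q (of true y))⁻¹ = q (of true y) := inv_eq_of_mul_eq_one_left hy2
    set X := q (of false x) with hX
    set Y := q (of true y) with hY
    have hcases : ∀ g : PushoutI f, (q g * (X * Y) * (q g)⁻¹ = X * Y) ∨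
        (q g * (X * Y) * (q g)⁻¹ = (X * Y)⁻¹) := by
      intro g
      induction g using PushoutI.induction_on with
      | of i k =>
        by_cases hk : k ∈ (f i).range
        · left
          rw [(hq _).2 (hbase i k hk)]
          simp
        · right
          cases i
          · have h1 : q (of false k) = X := by
              have h2 := (hq _).2 (hbase _ _ (hidx0 x k hx hk))
              rw [map_mul, map_inv, map_mul, map_inv, mul_inv_eq_one] at h2
              exact h2
            rw [h1, mul_inv_rev, hxi, hyi]
            simp only [← mul_assoc, hx2, one_mul]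
          · have h1 : q (of true k) = Y := by
              have h2 := (hq _).2 (hbase _ _ (hidx1 y k hy hk))
              rw [map_mul, map_inv, map_mul, map_inv, mul_inv_eq_one] at h2
              exact h2
            rw [h1, mul_inv_rev, hxi, hyi]
            simp only [mul_assoc, hy2, mul_one]
      | base h =>
        left
        rw [(hq _).2 ⟨h, rfl⟩]
        simp
      | mul a b iha ihb =>
        have e : q (a * b) * (X * Y) * (q (a * b))⁻¹ =
            q a * (q b * (X * Y) * (q b)⁻¹) * (q a)⁻¹ := by
          rw [map_mul]; group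
        rw [e]
        rcases ihb with h | h <;> rw [h]
        · exact iha
        · have e2 : q a * (X * Y)⁻¹ * (q a)⁻¹ = (q a * (X * Y) * (q a)⁻¹)⁻¹ := by group
          rw [e2]
          rcases iha with h' | h' <;> rw [h']
          · right; rfl
          · left; rw [inv_inv]
    intro g
    rw [← hq]
    have e3 : q (g ^ 2 * (of false x * of true y) * (g ^ 2)⁻¹ * (of false x * of true y)⁻¹)
        = (q g * (q g * (X * Y) * (q g)⁻¹) * (q g)⁻¹) * (X * Y)⁻¹ := by
      simp only [map_mul, map_inv, pow_two, hX, hY]
      group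
    rw [e3]
    rcases hcases g with h | h
    · rw [h, h, mul_inv_cancel]
    · have e4 : q g * (X * Y)⁻¹ * (q g)⁻¹ = (q g * (X * Y) * (q g)⁻¹)⁻¹ := by group
      rw [h, e4, h, inv_inv, mul_inv_cancel]

end Pool.Agent.H46R2.Amalgam
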