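import Mathlib

set_option autoImplicit false

namespace Pool.Agent.H46R2.Cryst

open Complex GaussianInt

/-- The crystallographic group of all maps `z ↦ u z + v` of `ℂ²`, with `u` a unit of `ℤ[i]` and
`v` in `ℤ[i]²`. -/
@[ext]
structure CG : Type where
  /-- the linear part -/
  u : GaussianIntˣ
  /-- the translation part -/
  v : Fin 2 → GaussianInt

namespace CG

instance : Mul CG := ⟨fun a b => ⟨a.u * b.u, a.v + (a.u : GaussianInt) • b.v⟩⟩
instance : One CG := ⟨⟨1, 0⟩⟩
instance : Inv CG := ⟨fun a => ⟨a.u⁻¹, -(((a.u⁻¹ : GaussianIntˣ) : GaussianInt) • a.v)⟩⟩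

@[simp] theorem mul_u (a b : CG) : (a * b).u = a.u * b.u := rfl
@[simp] theorem mul_v (a b : CG) : (a * b).v = a.v + (a.u : GaussianInt) • b.v := rfl
@[simp] theorem one_u : (1 : CG).u = 1 := rfl
@[simp] theorem one_v : (1 : CG).v = 0 := rfl
@[simp] theorem inv_u (a : CG) : (a⁻¹).u = a.u⁻¹ := rfl
@[simp] theorem inv_v (a : CG) : (a⁻¹).v = -(((a.u⁻¹ : GaussianIntˣ) : GaussianInt) • a.v) := rfl

instance : Group CG := Group.ofLeftAxioms
  (by intro a b c; ext1 <;> simp [mul_assoc, smul_smul, add_assoc])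
  (by intro a; ext1 <;> simp)
  (by intro a; ext1 <;> simp [smul_smul])

end CG

theorem unit_cases (u : GaussianIntˣ) :
    (u : GaussianInt) = ⟨1, 0⟩ ∨ (u : GaussianInt) = ⟨-1, 0⟩ ∨ (u : GaussianInt) = ⟨0, 1⟩ ∨
      (u : GaussianInt) = ⟨0, -1⟩ := by
  have h : (u : GaussianInt).norm = 1 := (Zsqrtd.norm_eq_one_iff' (by norm_num) _).2 u.isUnit
  rw [Zsqrtd.norm_def] at h
  have hext : (u : GaussianInt) = ⟨(u : GaussianInt).re, (u : GaussianInt).im⟩ := rfl
  rw [hext]
  generalize (u : GaussianInt).re = a at h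
  generalize (u : GaussianInt).im = b at h
  have h1 : a * a + b * b = 1 := by linarith
  have ha : -1 ≤ a ∧ a ≤ 1 := ⟨by nlinarith, by nlinarith⟩
  have hb : -1 ≤ b ∧ b ≤ 1 := ⟨by nlinarith, by nlinarith⟩
  obtain ⟨ha1, ha2⟩ := ha
  obtain ⟨hb1, hb2⟩ := hb
  interval_cases a <;> interval_cases b <;> simp_all

theorem unit_pow_four (u : GaussianIntˣ) : u ^ 4 = 1 := by
  ext1
  rcases unit_cases u with h | h | h | h <;> simp [h, pow_succ, Zsqrtd.ext_iff]

instance : Finite GaussianIntˣ := by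
  have : Function.Injective (fun u : GaussianIntˣ =>
      ((if (u : GaussianInt) = ⟨1, 0⟩ then 0 else if (u : GaussianInt) = ⟨-1, 0⟩ then 1 else
        if (u : GaussianInt) = ⟨0, 1⟩ then 2 else 3 : Fin 4))) := by
    intro a b hab
    ext1
    rcases unit_cases a with h | h | h | h <;> rcases unit_cases b with h' | h' | h' | h' <;>
      simp_all [Zsqrtd.ext_iff]
  exact Finite.of_injective _ this

theorem comm_of_u_eq_one (a b : CG) (ha : a.u = 1) (hb : b.u = 1) : a * b = b * a := by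
  ext1 <;> simp [ha, hb, add_comm]

theorem pow_four_u (a : CG) : (a ^ 4).u = 1 := by
  have : (a ^ 4).u = a.u ^ 4 := by simp [pow_succ]
  rw [this, unit_pow_four]

theorem pow_four_comm (a b : CG) : a ^ 4 * b ^ 4 = b ^ 4 * a ^ 4 :=
  comm_of_u_eq_one _ _ (pow_four_u a) (pow_four_u b)

/-- The rotation by `i`. -/
def rot : CG := ⟨⟨⟨0, 1⟩, ⟨0, -1⟩, by ext <;> simp, by ext <;> simp⟩, 0⟩

theorem rot_conj (a : CG) (ha : a.u = 1) : rot ^ 2 * a * (rot ^ 2)⁻¹ = a⁻¹ := by
  have h1 : (rot ^ 2).u = -1 := by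
    ext1
    simp [pow_succ, rot, Zsqrtd.ext_iff]
  have h2 : (rot ^ 2).v = 0 := by
    simp [pow_succ, rot]
  ext1
  · simp [h1, ha]
  · simp [h1, h2, ha]

/-- No nontrivial homomorphism to `ℤ`. -/
theorem hom_int_trivial (χ : CG →* Multiplicative ℤ) (g : CG) : χ g = 1 := by
  have h1 : χ (g ^ 4) = (χ (g ^ 4))⁻¹ := by
    rw [← map_inv, ← rot_conj (g ^ 4) (pow_four_u g), map_mul, map_mul, map_inv, mul_comm,
      ← mul_assoc, inv_mul_cancel, one_mul]
  rw [map_pow] at h1
  have h2 : Multiplicative.toAdd ((χ g) ^ 4) = Multiplicative.toAdd (((χ g) ^ 4)⁻¹) := by rw [← h1]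
  rw [toAdd_inv, toAdd_pow] at h2
  have h3 : Multiplicative.toAdd (χ g) = 0 := by
    simp only [nsmul_eq_mul, Nat.cast_ofNat] at h2
    omega
  exact Multiplicative.toAdd.injective (by rw [h3]; rfl)

/-- The shear automorphism `v ↦ (v₀ + n v₁, v₁)`. -/
def shearFun (n : ℤ) (a : CG) : CG := ⟨a.u, fun j => if j = 0 then a.v 0 + n * a.v 1 else a.v 1⟩

/-- The shear automorphism `v ↦ (v₀ + n v₁, v₁)`. -/
def shear (n : ℤ) : MulAut CG where
  toFun := shearFun n
  invFun := shearFun (-n)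
  left_inv := by
    intro a
    ext1
    · rfl
    · funext j
      fin_cases j <;> simp [shearFun]
  right_inv := by
    intro a
    ext1
    · rfl
    · funext j
      fin_cases j <;> simp [shearFun]
  map_mul' := by
    intro a b
    ext1
    · rfl
    · funext j
      fin_cases j
      · simp [shearFun]; ring
      · simp [shearFun]

theorem out_infinite : Infinite (MulAut CG ⧸ (MulAut.conj : CG →* MulAut CG).range) := by
  apply Infinite.of_injective
    (fun n : ℤ => (QuotientGroup.mk (shear n) : MulAut CG ⧸ (MulAut.conj : CG →* MulAut CG).range))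
  intro n m hnm
  simp only at hnm
  rw [QuotientGroup.eq] at hnm
  obtain ⟨g, hg⟩ := hnm
  have h1 : shear n * MulAut.conj g = shear m := by
    rw [hg, mul_inv_cancel_left]
  let e : CG := ⟨1, fun j => if j = 0 then 0 else 1⟩
  have h2 : (shear n * MulAut.conj g) e = shear m e := by rw [h1]
  have h3 : (shear n (g * e * g⁻¹)) = shear m e := by
    rw [← h2]; rfl
  have h4 := congrArg CG.v h3
  have h5 := congrFun h4 1
  have h6 := congrFun h4 0
  simp [shear, shearFun, e] at h5 h6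
  rw [h5] at h6
  simpa using h6

end Pool.Agent.H46R2.Cryst
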