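import Pool.Agent.H46R2.Cryst

set_option autoImplicit false

namespace Pool.Agent.H46R2.Cryst

open Complex GaussianInt

/-- The plane `ℂ²` with its Euclidean metric. -/
abbrev E : Type := EuclideanSpace ℂ (Fin 2)

noncomputable instance : MulAction CG E where
  smul g z := WithLp.toLp 2 (fun j => (g.v j : ℂ) + ((g.u : GaussianInt) : ℂ) * z j)
  one_smul z := by
    ext j
    change ((0 : GaussianInt) : ℂ) + (((1 : GaussianIntˣ) : GaussianInt) : ℂ) * z j = z j
    simp
  mul_smul g h z := by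
    ext j
    change (((g.v + (g.u : GaussianInt) • h.v) j : GaussianInt) : ℂ) +
      (((g.u * h.u : GaussianIntˣ) : GaussianInt) : ℂ) * z j =
      (g.v j : ℂ) + ((g.u : GaussianInt) : ℂ) * ((h.v j : ℂ) + ((h.u : GaussianInt) : ℂ) * z j)
    simp
    ring

theorem smul_apply (g : CG) (z : E) (j : Fin 2) :
    (g • z) j = (g.v j : ℂ) + ((g.u : GaussianInt) : ℂ) * z j := rfl

theorem norm_unit (u : GaussianIntˣ) : ‖((u : GaussianInt) : ℂ)‖ = 1 := by
  rcases unit_cases u with h | h | h | h <;> simp [h, toComplex_def']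

theorem isom (g : CG) (x y : E) : dist (g • x) (g • y) = dist x y := by
  rw [EuclideanSpace.dist_eq, EuclideanSpace.dist_eq]
  congr 1
  apply Finset.sum_congr rfl
  intro j _
  rw [smul_apply, smul_apply, dist_add_left, dist_eq_norm, ← mul_sub, norm_mul, norm_unit, one_mul,
    dist_eq_norm]

theorem cat0 (x y : E) : ∃ m : E, ∀ z : E,
    dist z m ^ 2 ≤ (dist z x ^ 2 + dist z y ^ 2) / 2 - dist x y ^ 2 / 4 := by
  refine ⟨(1 / 2 : ℝ) • (x + y), fun z => ?_⟩
  rw [dist_eq_norm, dist_eq_norm, dist_eq_norm, dist_eq_norm]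
  have h1 : z - (1 / 2 : ℝ) • (x + y) = (1 / 2 : ℝ) • ((z - x) + (z - y)) := by module
  have h2 : x - y = (z - y) - (z - x) := by abel
  rw [h1, norm_smul]
  have := parallelogram_law_with_norm ℝ (z - y) (z - x)
  rw [← h2] at this
  rw [add_comm (z - x) (z - y)]
  norm_num
  nlinarith [this]

theorem finite_bounded (R : ℝ) :
    Set.Finite {g : CG | ∀ j, ‖(g.v j : ℂ)‖ ≤ R} := by
  obtain ⟨N, hN⟩ := exists_nat_ge R
  let F : CG → GaussianIntˣ × (Fin 2 → ℤ) × (Fin 2 → ℤ) := fun g =>
    (g.u, fun j => (g.v j).re, fun j => (g.v j).im)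
  have hF : Function.Injective F := by
    intro a b hab
    simp only [F, Prod.mk.injEq] at hab
    ext1
    · exact hab.1
    · funext j
      exact Zsqrtd.ext (congrFun hab.2.1 j) (congrFun hab.2.2 j)
  have hfin : ((Set.univ : Set GaussianIntˣ) ×ˢ ((Set.Icc (fun _ => -(N : ℤ)) (fun _ => (N : ℤ)) :
      Set (Fin 2 → ℤ)) ×ˢ (Set.Icc (fun _ => -(N : ℤ)) (fun _ => (N : ℤ)) :
      Set (Fin 2 → ℤ)))).Finite :=
    Set.finite_univ.prod ((Set.finite_Icc _ _).prod (Set.finite_Icc _ _))
  refine Set.Finite.of_finite_image (f := F) (hfin.subset ?_) hF.injOn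
  rintro _ ⟨g, hg, rfl⟩
  refine ⟨trivial, ?_, ?_⟩
  · have key : ∀ j, |(((g.v j).re : ℤ) : ℝ)| ≤ N := by
      intro j
      rw [GaussianInt.intCast_re]
      exact ((abs_re_le_norm _).trans (hg j)).trans hN
    constructor
    · intro j
      have := (abs_le.1 (key j)).1
      simp only [F]
      exact_mod_cast this
    · intro j
      have := (abs_le.1 (key j)).2
      simp only [F]
      exact_mod_cast this
  · have key : ∀ j, |(((g.v j).im : ℤ) : ℝ)| ≤ N := by
      intro j
      rw [GaussianInt.intCast_im]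
      exact ((abs_im_le_norm _).trans (hg j)).trans hN
    constructor
    · intro j
      have := (abs_le.1 (key j)).1
      simp only [F]
      exact_mod_cast this
    · intro j
      have := (abs_le.1 (key j)).2
      simp only [F]
      exact_mod_cast this

theorem proper (K : Set E) (hK : IsCompact K) :
    Set.Finite {g : CG | (((fun x => g • x) '' K) ∩ K).Nonempty} := by
  obtain ⟨R, hR⟩ := hK.isBounded.subset_closedBall 0
  refine (finite_bounded (2 * R)).subset ?_
  rintro g ⟨y, ⟨x, hx, rfl⟩, hy⟩ j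
  have h1 : ‖x‖ ≤ R := by simpa using hR hx
  have h2 : ‖g • x‖ ≤ R := by simpa using hR hy
  have h3 : (g.v j : ℂ) = (g • x) j - ((g.u : GaussianInt) : ℂ) * x j := by
    rw [smul_apply]; ring
  rw [h3]
  calc ‖(g • x) j - ((g.u : GaussianInt) : ℂ) * x j‖
      ≤ ‖(g • x) j‖ + ‖((g.u : GaussianInt) : ℂ) * x j‖ := norm_sub_le _ _
    _ = ‖(g • x) j‖ + ‖x j‖ := by rw [norm_mul, norm_unit, one_mul]
    _ ≤ ‖g • x‖ + ‖x‖ := add_le_add (PiLp.norm_apply_le _ _) (PiLp.norm_apply_le _ _)
    _ ≤ 2 * R := by linarith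

theorem cocompact : ∃ K : Set E, IsCompact K ∧ ∀ x : E, ∃ g : CG, ∃ k ∈ K, g • k = x := by
  refine ⟨Metric.closedBall 0 2, isCompact_closedBall _ _, fun x => ?_⟩
  let w : Fin 2 → GaussianInt := fun j => ⟨round (x j).re, round (x j).im⟩
  refine ⟨⟨1, w⟩, WithLp.toLp 2 (fun j => x j - (w j : ℂ)), ?_, ?_⟩
  · rw [mem_closedBall_zero_iff, EuclideanSpace.norm_eq]
    have hb : ∀ j, ‖x j - (w j : ℂ)‖ ^ 2 ≤ 1 := by
      intro j
      rw [← normSq_eq_norm_sq, normSq_apply]
      have h1 : (x j - (w j : ℂ)).re = (x j).re - round (x j).re := by simp [w, toComplex_def']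
      have h2 : (x j - (w j : ℂ)).im = (x j).im - round (x j).im := by simp [w, toComplex_def']
      rw [h1, h2]
      have h3 := abs_le.1 (abs_sub_round (x j).re)
      have h4 := abs_le.1 (abs_sub_round (x j).im)
      nlinarith [h3.1, h3.2, h4.1, h4.2]
    rw [Real.sqrt_le_left (by norm_num)]
    rw [Fin.sum_univ_two]
    have := hb 0
    have := hb 1
    simp only
    linarith
  · ext j
    rw [smul_apply]
    simp

end Pool.Agent.H46R2.Cryst
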